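import Pool.Agent.Lib.MP_edb5be_nt.ND.H38.ZDen

/-!
Project ND, module SIGMA: countable additivity of the natural density on invariant sets.
-/

set_option autoImplicit false

namespace Pool.Agent.Lib.MP_edb5be_nt.ND.H38

open Finset Pool.Agent.Lib.MP_0a5adf_nt.TP Filter Topology

/-- The window. -/
def Wd (d : Bool) (X : ℝ) : Set ℤ := {x : ℤ | 0 < sg d * x ∧ ((sg d * x : ℤ) : ℝ) ≤ X}

theorem wd_finite (d : Bool) (X : ℝ) : (Wd d X).Finite := by
  have h1 : (Wd d X) ⊆ (fun n : ℕ => sg d * (n : ℤ)) '' (Set.Iic ⌊X⌋₊) := by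
    rintro x ⟨h2, h3⟩
    refine ⟨(sg d * x).toNat, ?_, ?_⟩
    · apply Nat.le_floor
      have : (((sg d * x).toNat : ℤ) : ℝ) = ((sg d * x : ℤ) : ℝ) := by
        rw [Int.toNat_of_nonneg h2.le]
      rw [← Int.cast_natCast, this]
      exact h3
    · show sg d * (((sg d * x).toNat : ℕ) : ℤ) = x
      rw [Int.toNat_of_nonneg h2.le, sg_sg]
  exact ((Set.finite_Iic _).image _).subset h1

theorem cnt_eq_inter (d : Bool) (S : Set ℤ) (X : ℝ) : cnt d S X = ((S ∩ Wd d X).ncard : ℝ) := rfl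

theorem cnt_nonneg (d : Bool) (S : Set ℤ) (X : ℝ) : 0 ≤ cnt d S X := by
  rw [cnt_eq_inter]; positivity

theorem cnt_mono (d : Bool) {S S' : Set ℤ} (h : S ⊆ S') (X : ℝ) : cnt d S X ≤ cnt d S' X := by
  rw [cnt_eq_inter, cnt_eq_inter]
  exact_mod_cast Set.ncard_le_ncard (Set.inter_subset_inter_left _ h)
    ((wd_finite d X).subset Set.inter_subset_right)

theorem cnt_union_le (d : Bool) (S S' : Set ℤ) (X : ℝ) :
    cnt d (S ∪ S') X ≤ cnt d S X + cnt d S' X := by
  rw [cnt_eq_inter, cnt_eq_inter, cnt_eq_inter, Set.union_inter_distrib_right]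
  exact_mod_cast Set.ncard_union_le _ _

theorem cnt_union_eq (d : Bool) {S S' : Set ℤ} (h : Disjoint S S') (X : ℝ) :
    cnt d (S ∪ S') X = cnt d S X + cnt d S' X := by
  rw [cnt_eq_inter, cnt_eq_inter, cnt_eq_inter, Set.union_inter_distrib_right]
  rw [Set.ncard_union_eq (h.mono Set.inter_subset_left Set.inter_subset_left)
    ((wd_finite d X).subset Set.inter_subset_right) ((wd_finite d X).subset Set.inter_subset_right)]
  push_cast
  ring

theorem cnt_biUnion (d : Bool) {ι : Type} (S : ι → Set ℤ)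
    (hS : ∀ j j', j ≠ j' → Disjoint (S j) (S j')) (X : ℝ) (F : Finset ι) :
    cnt d (⋃ j ∈ F, S j) X = ∑ j ∈ F, cnt d (S j) X := by
  classical
  induction F using Finset.induction_on with
  | empty => simp [cnt]
  | insert a F ha ih =>
    rw [Finset.sum_insert ha, Finset.set_biUnion_insert, cnt_union_eq, ih]
    rw [Set.disjoint_iUnion₂_right]
    intro j hj
    refine hS a j ?_
    rintro rfl
    exact ha hj

theorem sigma (h : ZDenStatement) (hT : ∀ d, DensityStatement d) : SigmaStatement := by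
  classical
  obtain ⟨C0, hC0, HZ⟩ := h
  intro d ι S δ hinv hdis hdens
  have hU : InvZ (⋃ j, S j) := by
    intro x
    simp only [Set.mem_iUnion]
    exact exists_congr fun j => hinv j x
  obtain ⟨D, hD0, hD1, hD, -⟩ := HZ d 1 (⋃ j, S j) le_rfl (fun x _ => hU x)
  refine ⟨D, ?_, hD⟩
  have hδ : ∀ j, 0 ≤ δ j := by
    intro j
    refine ge_of_tendsto (hdens j) ?_
    filter_upwards [eventually_gt_atTop (0 : ℝ)] with X hX
    exact div_nonneg (cnt_nonneg _ _ _) hX.le
  have hsumt : ∀ F : Finset ι, Tendsto (fun X : ℝ => (∑ j ∈ F, cnt d (S j) X) / X) atTop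
      (𝓝 (∑ j ∈ F, δ j)) := by
    intro F
    simp only [Finset.sum_div]
    exact tendsto_finsetSum _ fun j _ => hdens j
  have hle : ∀ F : Finset ι, ∑ j ∈ F, δ j ≤ D := by
    intro F
    refine le_of_tendsto_of_tendsto (hsumt F) hD ?_
    filter_upwards [eventually_gt_atTop (0 : ℝ)] with X hX
    rw [← cnt_biUnion d S hdis]
    refine div_le_div_of_nonneg_right (cnt_mono d ?_ X) hX.le
    exact Set.iUnion₂_subset fun j _ => Set.subset_iUnion S j
  obtain ⟨-, c, C, hc, hC, HT⟩ := hT d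
  have hge : ∀ y : ℝ, 1 ≤ y → ∃ F : Finset ι, D ≤ ∑ j ∈ F, δ j + C / y ^ c := by
    intro y hy
    have hfin : {j : ι | ∃ x ∈ S j, |(x : ℝ)| < y}.Finite := by
      have h1 : {j : ι | ∃ x ∈ S j, |(x : ℝ)| < y} ⊆
          ⋃ x ∈ Set.Icc (-(⌈y⌉)) ⌈y⌉, {j : ι | x ∈ S j} := by
        rintro j ⟨x, hx, hxy⟩
        rw [Set.mem_iUnion₂]
        refine ⟨x, ?_, hx⟩
        rw [abs_lt] at hxy
        have h2 : y ≤ ⌈y⌉ := Int.le_ceil y
        constructor
        · have : (-(⌈y⌉ : ℝ)) ≤ x := by linarith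
          exact_mod_cast this
        · have : (x : ℝ) ≤ ⌈y⌉ := by linarith
          exact_mod_cast this
      refine Set.Finite.subset (Set.Finite.biUnion (Set.finite_Icc _ _) ?_) h1
      intro x _
      refine Set.Subsingleton.finite ?_
      intro j hj j' hj'
      by_contra hne
      exact Set.disjoint_left.1 (hdis j j' hne) hj hj'
    refine ⟨hfin.toFinset, ?_⟩
    refine le_of_tendsto_of_tendsto hD ((hsumt hfin.toFinset).add_const (C / y ^ c)) ?_
    filter_upwards [eventually_ge_atTop (1 : ℝ)] with X hX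
    have hX0 : (0 : ℝ) < X := by linarith
    set U' : Set ℤ := {x | ∃ j, j ∉ hfin.toFinset ∧ x ∈ S j} with hU'
    have hsub : (⋃ j, S j) ⊆ (⋃ j ∈ hfin.toFinset, S j) ∪ U' := by
      intro x hx
      rw [Set.mem_iUnion] at hx
      obtain ⟨j, hj⟩ := hx
      by_cases hjF : j ∈ hfin.toFinset
      · left
        rw [Set.mem_iUnion₂]
        exact ⟨j, hjF, hj⟩
      · right
        exact ⟨j, hjF, hj⟩
    have h1 : cnt d (⋃ j, S j) X ≤ ∑ j ∈ hfin.toFinset, cnt d (S j) X + cnt d U' X := by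
      rw [← cnt_biUnion d S hdis]
      exact (cnt_mono d hsub X).trans (cnt_union_le _ _ _ _)
    have h2 : cnt d U' X ≤ C * X / y ^ c := by
      refine le_trans ?_ (HT X y hX hy)
      rw [cnt_eq]
      have hfin2 : {n : ℕ | (n : ℝ) ≤ X ∧ ∀ k, y ≤ ((T d)^[k] n : ℝ)}.Finite := by
        refine (Set.finite_Iic ⌊X⌋₊).subset fun n hn => ?_
        exact Nat.le_floor hn.1
      have hs : {N : ℕ | N ∈ {n : ℕ | sg d * (n : ℤ) ∈ U'} ∧ 1 ≤ N ∧ (N : ℝ) ≤ X} ⊆
          {n : ℕ | (n : ℝ) ≤ X ∧ ∀ k, y ≤ ((T d)^[k] n : ℝ)} := by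
        rintro n ⟨⟨j, hjF, hj⟩, -, hnX⟩
        refine ⟨hnX, fun k => ?_⟩
        by_contra hk
        push Not at hk
        apply hjF
        rw [Set.Finite.mem_toFinset]
        refine ⟨sg d * ((T d)^[k] n : ℤ), ?_, ?_⟩
        · rw [← tz_sg_iter]
          clear hk
          induction k with
          | zero => exact hj
          | succ k ih =>
            rw [Function.iterate_succ_apply']
            exact (hinv j _).1 ih
        · rw [abs_sg]
          exact hk
      exact_mod_cast Set.ncard_le_ncard hs hfin2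
    rw [div_le_iff₀ hX0]
    have e : (((∑ j ∈ hfin.toFinset, cnt d (S j) X) / X) + C / y ^ c) * X =
        ∑ j ∈ hfin.toFinset, cnt d (S j) X + C * X / y ^ c := by
      field_simp
    rw [e]
    linarith
  refine hasSum_of_isLUB_of_nonneg D hδ ⟨?_, ?_⟩
  · rintro _ ⟨F, rfl⟩
    exact hle F
  · intro b hb
    have hlim : Tendsto (fun y : ℝ => b + C / y ^ c) atTop (𝓝 (b + 0)) :=
      tendsto_const_nhds.add (tendsto_const_nhds.div_atTop (tendsto_rpow_atTop hc))
    rw [add_zero] at hlim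
    refine ge_of_tendsto hlim ?_
    filter_upwards [eventually_ge_atTop (1 : ℝ)] with y hy
    obtain ⟨F, hF⟩ := hge y hy
    have : ∑ j ∈ F, δ j ≤ b := hb ⟨F, rfl⟩
    linarith

end Pool.Agent.Lib.MP_edb5be_nt.ND.H38
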