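import Pool.Agent.Lib.MP_edb5be_nt.ND.Iface
import Pool.Agent.Lib.MP_0a5adf_nt.H38.Zcyc

/-!
Project ND, module ZDEN: natural densities on the integers.
-/

set_option autoImplicit false

namespace Pool.Agent.Lib.MP_edb5be_nt.ND.H38

open Finset Pool.Agent.Lib.MP_0a5adf_nt.TP Filter Topology

theorem sg_inj (d : Bool) : Function.Injective (fun n : ℕ => sg d * (n : ℤ)) := by
  intro a b h
  cases d <;> simp [sg] at h <;> exact h

theorem sg_sg (d : Bool) (x : ℤ) : sg d * (sg d * x) = x := by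
  cases d <;> simp [sg]

theorem tz_sg (d : Bool) (n : ℕ) : TZ (sg d * (n : ℤ)) = sg d * (T d n : ℤ) := by
  cases d
  · simpa [sg] using Pool.Agent.Lib.MP_0a5adf_nt.H38.tz_neg n
  · simpa [sg] using Pool.Agent.Lib.MP_0a5adf_nt.H38.tz_nat n

theorem tz_sg_iter (d : Bool) (n k : ℕ) : TZ^[k] (sg d * (n : ℤ)) = sg d * ((T d)^[k] n : ℤ) := by
  cases d
  · simpa [sg] using Pool.Agent.Lib.MP_0a5adf_nt.H38.tz_iter_neg n k
  · simpa [sg] using Pool.Agent.Lib.MP_0a5adf_nt.H38.tz_iter_nat n k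

theorem abs_sg (d : Bool) (n : ℕ) : |((sg d * (n : ℤ) : ℤ) : ℝ)| = n := by
  cases d <;> simp [sg]

/-- The counting function in terms of the natural numbers. -/
theorem cnt_eq (d : Bool) (S : Set ℤ) (X : ℝ) :
    cnt d S X = ({N : ℕ | N ∈ {n : ℕ | sg d * (n : ℤ) ∈ S} ∧ 1 ≤ N ∧ (N : ℝ) ≤ X}.ncard : ℝ) := by
  unfold cnt
  congr 1
  rw [← Set.ncard_image_of_injective _ (sg_inj d)]
  congr 1
  ext x
  constructor
  · rintro ⟨h1, h2, h3⟩
    refine ⟨(sg d * x).toNat, ⟨?_, ?_, ?_⟩, ?_⟩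
    · show sg d * (((sg d * x).toNat : ℕ) : ℤ) ∈ S
      rw [Int.toNat_of_nonneg h2.le, sg_sg]
      exact h1
    · omega
    · have : (((sg d * x).toNat : ℤ) : ℝ) = ((sg d * x : ℤ) : ℝ) := by
        rw [Int.toNat_of_nonneg h2.le]
      rw [← Int.cast_natCast, this]
      exact h3
    · show sg d * (((sg d * x).toNat : ℕ) : ℤ) = x
      rw [Int.toNat_of_nonneg h2.le, sg_sg]
  · rintro ⟨n, ⟨h1, h2, h3⟩, rfl⟩
    refine ⟨h1, ?_, ?_⟩
    · show 0 < sg d * (sg d * (n : ℤ))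
      rw [sg_sg]
      omega
    · show ((sg d * (sg d * (n : ℤ)) : ℤ) : ℝ) ≤ X
      rw [sg_sg]
      exact_mod_cast h3

theorem hasDens_of_bound {d : Bool} {S : Set ℤ} {D C K : ℝ}
    (h : ∀ X : ℝ, 2 ≤ X → |cnt d S X - D * X| ≤ C * (X * Real.log X ^ (-(1 / 38) : ℝ) + K)) :
    HasDens d S D := by
  unfold HasDens
  rw [tendsto_iff_norm_sub_tendsto_zero]
  have h1 : Tendsto (fun X : ℝ => C * (Real.log X ^ (-(1 / 38) : ℝ) + K / X)) atTop (𝓝 0) := by
    have a1 : Tendsto (fun X : ℝ => Real.log X ^ (-(1 / 38) : ℝ)) atTop (𝓝 0) :=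
      (tendsto_rpow_neg_atTop (by norm_num : (0 : ℝ) < 1 / 38)).comp Real.tendsto_log_atTop
    have a2 : Tendsto (fun X : ℝ => K / X) atTop (𝓝 0) := tendsto_const_nhds.div_atTop tendsto_id
    simpa using (a1.add a2).const_mul C
  refine squeeze_zero' (Eventually.of_forall fun X => norm_nonneg _) ?_ h1
  filter_upwards [eventually_ge_atTop (2 : ℝ)] with X hX
  have hX0 : (0 : ℝ) < X := by linarith
  have h2 := h X hX
  rw [Real.norm_eq_abs]
  have e1 : cnt d S X / X - D = (cnt d S X - D * X) / X := by field_simp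
  rw [e1, abs_div, abs_of_pos hX0, div_le_iff₀ hX0]
  refine h2.trans (le_of_eq ?_)
  field_simp

theorem zden (h : CountStatement) : ZDenStatement := by
  obtain ⟨C, hC, H⟩ := h
  refine ⟨4 * C, by positivity, fun d y S hy hS => ?_⟩
  have hy0 : (0 : ℝ) < y := by linarith
  set lo : ℕ := ⌈Real.logb 2 y⌉₊ with hlo
  have hlog0 : 0 ≤ Real.logb 2 y := Real.logb_nonneg (by norm_num) hy
  have hlo1 : y ≤ 2 ^ lo := by
    have h1 : Real.logb 2 y ≤ lo := Nat.le_ceil _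
    have h2 := (Real.logb_le_iff_le_rpow (by norm_num : (1 : ℝ) < 2) hy0).1 h1
    rwa [Real.rpow_natCast] at h2
  have hlo2 : (2 : ℝ) ^ lo ≤ 2 * y := by
    have h1 : (lo : ℝ) < Real.logb 2 y + 1 := Nat.ceil_lt_add_one hlog0
    have h2 : (2 : ℝ) ^ ((lo : ℕ) : ℝ) ≤ 2 ^ (Real.logb 2 y + 1) :=
      Real.rpow_le_rpow_of_exponent_le (by norm_num) h1.le
    rw [Real.rpow_natCast, Real.rpow_add (by norm_num), Real.rpow_logb (by norm_num) (by norm_num)
      hy0, Real.rpow_one] at h2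
    linarith
  have hinv : InvA d {n : ℕ | sg d * (n : ℤ) ∈ S} lo := by
    intro n hn
    have h1 : y ≤ |((sg d * (n : ℤ) : ℤ) : ℝ)| := by
      rw [abs_sg]
      refine hlo1.trans ?_
      exact_mod_cast hn
    have h2 := hS _ h1
    rw [tz_sg] at h2
    exact h2
  obtain ⟨D, hD0, hD1, HD⟩ := H d _ lo hinv
  have key : ∀ X : ℝ, 2 ≤ X →
      |cnt d S X - D * X| ≤ 4 * C * (X * Real.log X ^ (-(1 / 38) : ℝ) + y ^ 2) := by
    intro X hX
    have h1 := HD X hX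
    rw [← cnt_eq] at h1
    refine h1.trans ?_
    have h4 : (4 : ℝ) ^ lo ≤ 4 * y ^ 2 := by
      have : (4 : ℝ) ^ lo = (2 ^ lo) ^ 2 := by
        rw [← pow_mul, mul_comm, pow_mul]; norm_num
      rw [this]
      have h5 : (0 : ℝ) ≤ 2 ^ lo := by positivity
      nlinarith
    have h6 : 0 ≤ X * Real.log X ^ (-(1 / 38) : ℝ) := by
      have : 0 ≤ Real.log X := Real.log_nonneg (by linarith)
      positivity
    nlinarith
  exact ⟨D, hD0, hD1, hasDens_of_bound key, key⟩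

end Pool.Agent.Lib.MP_edb5be_nt.ND.H38
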